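import Pool.Agent.L0h19.ZE.RJ

/-!
# Subgroups of infinite rank for the curves with real `j`-invariant

Let `E l` be the elliptic curve `y ^ 2 = x (x - 1) (x - l)` over the algebraic closure of the field
of rational numbers, for `l` different from `0` and `1` (each elliptic curve over this field is
isomorphic to one of them). There is a system of subgroups `Γ l` of `E l`, one subgroup for each
`l`, such that

* `Γ l` is saturated (a point with a positive multiple in `Γ l` is in `Γ l`; so `Γ l` contains all
  torsion points);
* for each product `X` of curves `E (l 0), ..., E (l (r - 1))`, each zero-cycle of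
  degree zero on `X` that is supported on the product of the subgroups `Γ (l i)` and is in the
  kernel of the Albanese map is rationally equivalent to zero up to torsion (hence, by the theorem
  of Roitman, rationally equivalent to zero);
* `Γ l` is a group of infinite rank for each `l` such that the `j`-invariant of the curve `E l` has
  a real conjugate, that is, is real for some embedding of the algebraic numbers in the complex
  numbers (in particular for all the elliptic curves over number fields with a real place).
-/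

set_option autoImplicit false

namespace Pool.Agent.Results.MP_2eeeac_ag.InfiniteIsotropic

open Pool.Agent.L0h19.ZE

open Classical in
theorem result : ∃ Γ : ∀ l : AlgebraicClosure ℚ, AddSubgroup (E l).Point,
    (∀ (l : AlgebraicClosure ℚ) (N : ℕ) (P : (E l).Point), 0 < N → N • P ∈ Γ l → P ∈ Γ l) ∧
    (∀ (r : ℕ) (l : Fin r → AlgebraicClosure ℚ),
      (∀ i, l i ≠ 0 ∧ l i ≠ 1) → ∀ z : Pts l →₀ ℤ, (∀ p ∈ z.support, ∀ i, p i ∈ Γ (l i)) →
        (z.sum fun _ c => c) = 0 → (∀ i, (z.sum fun p c => c • p i) = 0) →
          ∃ N : ℕ, 0 < N ∧ N • z ∈ RatEquivZero l) ∧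
    (∀ l : AlgebraicClosure ℚ, l ≠ 0 → l ≠ 1 →
      (∃ e : AlgebraicClosure ℚ →+* ℂ,
        (e (256 * (l ^ 2 - l + 1) ^ 3 / (l ^ 2 * (1 - l) ^ 2))).im = 0) →
      ∃ P : ℕ → (E l).Point, (∀ n, P n ∈ Γ l) ∧ LinearIndependent ℤ P) := by
  refine ⟨fun l => Gam (1 / 2) l, fun _ N P hN h => sat_sat _ N hN P h,
    fun _ _ hl z hz hd hs => vanish (1 / 2) (fun i => (hl i).1) (fun i => (hl i).2) z hz hd hs,
    fun l h0 h1 ⟨e, he⟩ => ?_⟩
  obtain ⟨c₀, ρ, θ, t₀, g1, g2, g3, g4, g5, g6⟩ := hasChain_j e h0 h1 he
  exact inf_rank e g1 g2 g3 g4 g5 g6 h0 h1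

end Pool.Agent.Results.MP_2eeeac_ag.InfiniteIsotropic
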