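import Pool.Agent.L0h19.ZE.Rank

/-!
# Zero-cycles over the algebraic numbers on products of elliptic curves

Let `E l` be the elliptic curve `y ^ 2 = x (x - 1) (x - l)` over the algebraic closure of the field
of rational numbers, for `l` different from `0` and `1` (each elliptic curve over this field is
isomorphic to one of them). There is a system of subgroups `Γ a l` of `E l`, for `a` and `l`
algebraic numbers, such that

* `Γ a l` is saturated (a point with a positive multiple in `Γ a l` is in `Γ a l`; so `Γ a l`
  contains all torsion points), and it contains the points with the `x`-coordinate `a`;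
* for each `a` and each product `X` of curves `E (l 0), ..., E (l (r - 1))`, each zero-cycle of
  degree zero on `X` that is supported on the product of the subgroups `Γ a (l i)` and is in the
  kernel of the Albanese map is rationally equivalent to zero up to torsion (hence, by the theorem
  of Roitman, rationally equivalent to zero);
* the ranks are arbitrarily large: for each finite set of parameters `l` and each `n` there is an
  `a` such that each of the groups `Γ a l` contains `n` linearly independent points.
-/

set_option autoImplicit false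

namespace Pool.Agent.Results.MP_2eeeac_ag.IsotropicSubgroups

open Pool.Agent.L0h19.ZE

open Classical in
theorem result : ∃ Γ : AlgebraicClosure ℚ → ∀ l : AlgebraicClosure ℚ, AddSubgroup (E l).Point,
    (∀ (a l : AlgebraicClosure ℚ) (N : ℕ) (P : (E l).Point), 0 < N → N • P ∈ Γ a l → P ∈ Γ a l) ∧
    (∀ (a l y : AlgebraicClosure ℚ) (h : (E l).Nonsingular a y),
      WeierstrassCurve.Affine.Point.some a y h ∈ Γ a l) ∧
    (∀ (a : AlgebraicClosure ℚ) (r : ℕ) (l : Fin r → AlgebraicClosure ℚ),
      (∀ i, l i ≠ 0 ∧ l i ≠ 1) → ∀ z : Pts l →₀ ℤ, (∀ p ∈ z.support, ∀ i, p i ∈ Γ a (l i)) →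
        (z.sum fun _ c => c) = 0 → (∀ i, (z.sum fun p c => c • p i) = 0) →
          ∃ N : ℕ, 0 < N ∧ N • z ∈ RatEquivZero l) ∧
    (∀ (Λ : Finset (AlgebraicClosure ℚ)), (∀ l ∈ Λ, l ≠ 0 ∧ l ≠ 1) → ∀ n : ℕ,
      ∃ a : AlgebraicClosure ℚ, ∀ l ∈ Λ, ∃ P : Fin n → (E l).Point,
        (∀ i, P i ∈ Γ a l) ∧ LinearIndependent ℤ P) :=
  ⟨fun a l => Gam a l, fun _ _ N P hN h => sat_sat _ N hN P h, fun a l y h => mem_Gam l a y h,
    fun a _ _ hl z hz hd hs => vanish a (fun i => (hl i).1) (fun i => (hl i).2) z hz hd hs,
    fun Λ hΛ n => rank_large Λ hΛ n⟩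

end Pool.Agent.Results.MP_2eeeac_ag.IsotropicSubgroups
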