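import Pool.Agent.L0h15.ZQ.Main

/-!
# MP_2eeeac_ag: reduction to rational zero-cycles on surfaces over the rational numbers

`D` consists of the groups of zero-cycles of degree zero and with trivial Albanese class on smooth
projective varieties over the algebraic numbers, over number fields and over the rational numbers.
-/

set_option autoImplicit false

namespace Pool.Agent.Results.MP_2eeeac_ag.SurfacesOverQ

open Pool.Agent.L0h15.ZQ

theorem result (D : Cycles) (hK : D.Fields) (hG : D.Geometry) :
    -- it is enough to consider cycles over `ℚ` on surfaces over `ℚ`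
    (D.Question ↔ ∀ T, D.dim T = 2 → ∀ w : D.F T, IsZero w) ∧
    -- it is enough to consider surfaces which are generically finite over their images in given
    -- varieties
    (∀ l : List D.Var, (∀ Y, Y ∈ l → 2 ≤ D.dim Y) →
      (D.Question ↔
        ∀ T, D.dim T = 2 → (∀ Y, Y ∈ l → D.GenFinite T Y) → ∀ w : D.F T, IsZero w)) ∧
    -- and differences of two closed points with symmetric Galois groups
    (∀ l : List D.Var, (∀ Y, Y ∈ l → 2 ≤ D.dim Y) →
      (D.Question ↔
        ∀ T, D.dim T = 2 → (∀ Y, Y ∈ l → D.GenFinite T Y) → ∀ p, IsZero (D.cls T p))) := by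
  refine ⟨⟨fun h T _ w => Cycles.surfaces_of_question hK h T w, fun h => ?_⟩,
    fun l hl => ⟨fun h T _ _ w => Cycles.surfaces_of_question hK h T w,
      fun h => Cycles.question_of_surfaces hK hG l hl h⟩,
    fun l hl => ⟨fun h T _ _ p => Cycles.surfaces_of_question hK h T _,
      fun h => Cycles.question_of_pairs hK hG l hl h⟩⟩
  exact Cycles.question_of_surfaces hK hG [] (by simp) fun T hT _ => h T hT

end Pool.Agent.Results.MP_2eeeac_ag.SurfacesOverQ
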